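import Pool.Agent.Helper87.Irr.GoalsT

/-!
MP_033e98_co, packets S1, S2, S5: `SLegs`, `SZero`, `SBottom`.
-/

namespace Irr93

open Irr37 Irr87

theorem perm_cons_app' (l : ℕ) (ch s g : RF) :
    RF.Perm (RF.cons l ch (app s g)) (app s (RF.cons l ch g)) := by
  induction s with
  | nil => exact RF.Perm.refl _
  | cons l' ch' s' _ ih =>
    simp only [app]
    exact (RF.Perm.swap l l' ch ch' _).trans (RF.Perm.cons l' ch' ih)

/-- S1: splitting off the legs -/
theorem sLegs : SLegs := by
  intro ch
  induction ch with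
  | nil =>
    intro _
    exact ⟨[], RF.nil, RF.Perm.refl _, noLeg_nil, fun e he => absurd he List.not_mem_nil⟩
  | cons l c sib _ ih =>
    intro hv
    obtain ⟨ls, g, h1, h2, h3⟩ := ih hv.2.2
    by_cases hl : l = 0 ∧ Legc c
    · obtain ⟨rfl, hc⟩ := hl
      obtain ⟨n, b, rfl⟩ := legc_iff.1 hc
      have hb : 1 ≤ b := by
        have := hv.2.1
        rwa [zrun_valid _ _ (le_of_eq (bot_width _).symm), bot_valid] at this
      refine ⟨(n + 1, b) :: ls, g, ?_, h2, ?_⟩
      · have e : app (legsF ((n + 1, b) :: ls)) g =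
            RF.cons 0 (zrun n (bot b)) (app (legsF ls) g) := by
          rw [legsF_cons]
          rfl
        rw [e]
        exact RF.Perm.cons 0 _ h1
      · intro e he
        rcases List.mem_cons.1 he with rfl | he
        · exact ⟨by simp, hb⟩
        · exact h3 e he
    · refine ⟨ls, RF.cons l c g, (RF.Perm.cons l c h1).trans (perm_cons_app' l c (legsF ls) g), ?_, h3⟩
      exact noLeg_cons.2 ⟨fun h0 hL => hl ⟨h0, hL⟩, h2⟩

/-- S2: a run ends in a vertex which is not a zero -/
theorem sZero : SZero := by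
  intro ch
  induction ch with
  | nil =>
    intro _ hw
    simp [RF.width] at hw
  | cons l c sib ihc _ =>
    intro hv hw
    have hs : sib = RF.nil := by
      cases sib with
      | nil => rfl
      | cons _ _ _ => simp only [RF.width] at hw; omega
    subst hs
    by_cases h0 : l = 0 ∧ c.width = 1
    · obtain ⟨rfl, h1⟩ := h0
      obtain ⟨n, l', c', h2, h3, h4⟩ := ihc hv.2.1 h1
      refine ⟨n + 1, l', c', ?_, h3, ?_⟩
      · rw [h2]
        rfl
      · intro hL
        exact h4 fun hL' => hL (Legc.zero hL')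
    · refine ⟨0, l, c, rfl, ?_, ?_⟩
      · by_cases hl : 1 ≤ l
        · exact Or.inl hl
        · right
          have hl0 : l = 0 := by omega
          have hc : c ≠ RF.nil := by
            intro hc
            have := hv.1 hc
            omega
          have := RF.width_pos hc
          have h5 : c.width ≠ 1 := fun h => h0 ⟨hl0, h⟩
          omega
      · intro hL hc
        subst hc
        exact hL (Legc.bot l)

theorem occ_bottom {f : RF} : f.Valid → f ≠ RF.nil → ∃ b, 1 ≤ b ∧ RF.Occ f b RF.nil := by
  induction f with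
  | nil => exact fun _ h => absurd rfl h
  | cons l c s ihc _ =>
    intro hv _
    by_cases hc : c = RF.nil
    · subst hc
      exact ⟨l, hv.1 rfl, RF.Occ.here _ _ _⟩
    · obtain ⟨b, h1, h2⟩ := ihc hv.2.1 hc
      exact ⟨b, h1, RF.Occ.down _ _ h2⟩

/-- S5: rooting at a bottom -/
theorem sBottom : SBottom := by
  intro l ch hv hne
  obtain ⟨b, hb, hocc⟩ := occ_bottom hv.1 hne
  obtain ⟨m, rest, h⟩ := Eqv.of_occ hocc l
  exact ⟨b, m, rest, hb, h⟩

end Irr93
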