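import Pool.Agent.Helper87.Irr.GoalsT

/-!
MP_033e98_co, packet S3: `SZeroRoot`.
-/

namespace Irr93

open Irr37 Irr87

/-- moving the first forest behind the second one -/
theorem perm_cons_app (l : ℕ) (ch s g : RF) :
    RF.Perm (RF.cons l ch (app s g)) (app s (RF.cons l ch g)) := by
  induction s with
  | nil => exact RF.Perm.refl _
  | cons l' ch' s' _ ih =>
    simp only [app]
    exact (RF.Perm.swap l l' ch ch' _).trans (RF.Perm.cons l' ch' ih)

theorem zrun_succ' (n : ℕ) (t : RF) : zrun n (RF.cons 0 t RF.nil) = zrun (n + 1) t := by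
  induction n with
  | zero => rfl
  | succ n ih =>
    show RF.cons 0 (zrun n (RF.cons 0 t RF.nil)) RF.nil = RF.cons 0 (zrun (n + 1) t) RF.nil
    rw [ih]

theorem zrun_zrun (n m : ℕ) (t : RF) : zrun n (zrun m t) = zrun (n + m) t := by
  induction n with
  | zero => rw [Nat.zero_add]; rfl
  | succ n ih =>
    have e : n + 1 + m = (n + m) + 1 := by omega
    rw [e]
    show RF.cons 0 (zrun n (zrun m t)) RF.nil = RF.cons 0 (zrun (n + m) t) RF.nil
    rw [ih]

/-- re-rooting along a run of zeros -/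
theorem eqv_run (n : ℕ) (t : RF) : ∀ g : RF, Eqv 0 (app (zrun n t) g) 0 (app t (zrun n g)) := by
  induction n with
  | zero => intro g; exact Eqv.refl _ _
  | succ n ih =>
    intro g
    have h1 : Eqv 0 (RF.cons 0 (zrun n t) g) 0 (RF.cons 0 g (zrun n t)) :=
      Eqv.reroot 0 0 (zrun n t) g
    have h2 : RF.Perm (RF.cons 0 g (zrun n t)) (app (zrun n t) (RF.cons 0 g RF.nil)) := by
      have := perm_cons_app 0 g (zrun n t) RF.nil
      rwa [app_nil] at this
    have h3 := ih (RF.cons 0 g RF.nil)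
    rw [zrun_succ'] at h3
    exact (h1.trans (Eqv.perm 0 h2)).trans h3

/-- re-rooting at the end vertex of a run -/
theorem eqv_end (n m : ℕ) (d g : RF) :
    Eqv 0 (app (zrun n (RF.cons m d RF.nil)) g) m (RF.cons 0 (zrun n g) d) := by
  have h1 := eqv_run n (RF.cons m d RF.nil) g
  exact h1.trans (Eqv.reroot 0 m d (zrun n g))

theorem width_one {f : RF} (h : f.width = 1) : ∃ l c, f = RF.cons l c RF.nil := by
  cases f with
  | nil => simp [RF.width] at h
  | cons l c s =>
    cases s with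
    | nil => exact ⟨l, c, rfl⟩
    | cons _ _ _ => simp only [RF.width] at h; omega

theorem width_two {f : RF} (h : f.width = 2) :
    ∃ l c l' c', f = RF.cons l c (RF.cons l' c' RF.nil) := by
  cases f with
  | nil => simp [RF.width] at h
  | cons l c s =>
    simp only [RF.width] at h
    obtain ⟨l', c', rfl⟩ := width_one (f := s) (by omega)
    exact ⟨l, c, l', c', rfl⟩

theorem valid_occ {f : RF} {l : ℕ} {c : RF} (h : RF.Occ f l c) : f.Valid →
    (c = RF.nil → 1 ≤ l) := by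
  induction h with
  | here l ch sib => exact fun hv => hv.1
  | down l sib _ ih => exact fun hv => ih hv.2.1
  | right l ch _ ih => exact fun hv => ih hv.2.2

/-- a zero can be made the root -/
theorem root_zero (l : ℕ) (ch : RF) (hv : RValid l ch)
    (h : ¬ NoZero ch ∨ (l = 0 ∧ ch.width = 2)) :
    ∃ f : RF, Eqv l ch 0 f ∧ f.width = 2 ∧ f.Valid := by
  rcases h with h | ⟨rfl, h⟩
  · unfold NoZero at h
    push Not at h
    obtain ⟨c, h1, h2⟩ := h
    have h3 := valid_occ h1 hv.1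
    have h4 : c ≠ RF.nil := fun h0 => by have := h3 h0; omega
    have h5 := RF.width_pos h4
    obtain ⟨m, rest, h6⟩ := Eqv.of_occ h1 l
    refine ⟨_, h6, ?_, (h6.rvalid hv).1⟩
    simp only [RF.width]
    omega
  · exact ⟨ch, Eqv.refl _ _, h, hv.1⟩

theorem sZeroRoot (hS : SZero) : SZeroRoot := by
  intro l ch hv _ h
  obtain ⟨f, h1, h2, h3⟩ := root_zero l ch hv h
  obtain ⟨a, A, b, B, rfl⟩ := width_two h2
  obtain ⟨ha1, ha2, hb1, hb2, _⟩ := h3
  obtain ⟨n1, m1, d1, e1, f1, -⟩ := hS (RF.cons a A RF.nil) ⟨ha1, ha2, trivial⟩ rfl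
  obtain ⟨n2, m2, d2, e2, f2, -⟩ := hS (RF.cons b B RF.nil) ⟨hb1, hb2, trivial⟩ rfl
  have key : ∀ (a b : ℕ) (A B : RF) (n1 m1 : ℕ) (d1 : RF) (n2 m2 : ℕ) (d2 : RF),
      RF.cons a A RF.nil = zrun n1 (RF.cons m1 d1 RF.nil) →
      RF.cons b B RF.nil = zrun n2 (RF.cons m2 d2 RF.nil) →
      Eqv 0 (RF.cons a A (RF.cons b B RF.nil)) m1
        (app (zrun (n1 + n2 + 1) (RF.cons m2 d2 RF.nil)) d1) := by
    intro a b A B n1 m1 d1 n2 m2 d2 e1 e2
    have h4 := eqv_end n1 m1 d1 (RF.cons b B RF.nil)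
    rw [← e1, e2, zrun_zrun] at h4
    rw [← e2] at h4
    exact h4
  have k1 := h1.trans (key a b A B n1 m1 d1 n2 m2 d2 e1 e2)
  have k2 := (h1.trans (Eqv.perm 0 (RF.Perm.swap a b A B RF.nil))).trans
    (key b a B A n2 m2 d2 n1 m1 d1 e2 e1)
  by_cases c1 : d1 = RF.nil
  · by_cases c2 : d2 = RF.nil
    · subst c1
      subst c2
      left
      simp only [RF.width] at f1 f2
      refine ⟨m1, n1 + n2 + 1, m2, by omega, by omega, by omega, ?_⟩
      rw [app_nil] at k1
      exact k1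
    · right
      exact ⟨m2, n2 + n1 + 1, _, d2, k2, by omega, rfl, RF.width_pos c2, f2⟩
  · right
    exact ⟨m1, n1 + n2 + 1, _, d1, k1, by omega, rfl, RF.width_pos c1, f1⟩

end Irr93
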